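import Pool.Agent.Helper37.LP.Wrap
import Pool.Agent.Helper63.LP.NLP
import Pool.Agent.Helper95.LP.CA
import Pool.Agent.Helper36.LP.CB
import Pool.Agent.Helper66.LP.TRA
import Pool.Agent.Helper81.LP.COV
import Pool.Agent.Helper11.LP.COST
import Pool.Agent.Helper72.LP.LB
import Pool.Agent.Helper87.LP.LIMJ
import Pool.Agent.Helper11.LP.KAP
import Pool.Agent.Helper54.LP.COR
import Pool.Agent.Helper98.LP.QCLS
import Pool.Agent.Helper72.LP.QLOW
import Pool.Agent.Helper95.LP.VOLV
import Pool.Agent.Helper9.LP.B1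
import Pool.Agent.Helper20.LP.B2
import Pool.Agent.Helper89.LP.B3
import Pool.Agent.Helper79.LP.BOX
import Pool.Agent.Helper36.LP.B2E
import Pool.Agent.Helper66.LP.B2G
import Pool.Agent.Helper53.LP.B1E
import Pool.Agent.Helper53.LP.ORT
import Pool.Agent.Helper81.LP.CVR
import Pool.Agent.Helper81.LP.RTF
import Pool.Agent.Helper67.LP.MONO
import Pool.Agent.Helper29.LP.QFAC
import Pool.Agent.Helper77.LP.GEN

/-!
# Swarm LP: the complete near part
-/

set_option autoImplicit false

noncomputable section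

namespace Helper37.LP.All

open Helper63.LP

theorem ort : S_ORT := Pool.Agent.Helper53.LP.ORT.main
theorem box : S_BOX := Pool.Agent.Helper79.LP.BOX.main
theorem volv : S_VOLV := Pool.Agent.Helper95.LP.VOLV.main
theorem mono : S_MONO := Pool.Agent.Helper67.LP.MONO.main
theorem lb : S_LB := Pool.Agent.Helper72.LP.LB.main
theorem qcls : S_QCLS := Pool.Agent.Helper98.LP.QCLS.main
theorem rtf : S_RTF := Pool.Agent.Helper81.LP.RTF.main
theorem qfac : S_QFAC := Pool.Agent.Helper29.LP.QFAC.main ort box volv qcls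
theorem qlow : S_QLOW := Pool.Agent.Helper72.LP.QLOW.main lb rtf qcls
theorem kap : S_KAP := Pool.Agent.Helper11.LP.KAP.main mono
theorem tra : S_TRA := Helper66.LP.TRA.main kap
theorem limj : S_LIMJ := Pool.Agent.Helper87.LP.LIMJ.main mono volv
theorem cov : S_COV := Pool.Agent.Helper81.LP.COV.main rtf Pool.Agent.Helper81.LP.CVR.main
theorem b1 : S_B1 := Pool.Agent.Helper9.LP.B1.main lb (Pool.Agent.Helper53.LP.B1E.main)
theorem b2 : S_B2 := Helper20.LP.B2.main box (Pool.Agent.Helper36.LP.B2E.main ort) Helper66.LP.B2G.main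
theorem cb : S_CB := Pool.Agent.Helper36.LP.CB.main lb b1 b2 Pool.Agent.Helper89.LP.B3.main
theorem ca : S_CA := Pool.Agent.Helper95.LP.CA.main lb Pool.Agent.Helper54.LP.COR.main qcls qfac qlow volv
theorem nlp : S_NLP := Helper63.LP.NLP.main ca cb tra cov Pool.Agent.Helper11.LP.COST.main lb limj
theorem gen : S_GEN := Pool.Agent.Helper77.LP.GEN.main nlp

end Helper37.LP.All

end
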